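import Pool.Agent.LPW.StmtsE

/-! Squad LPW, row LNB: exceptional points on lines. -/

set_option autoImplicit false

open Polynomial NumberField
open Pool.Agent.Helper85_Leo (LeopoldtAt)
open Pool.Agent.LUB (FullRank sp spr Exceptional MainStmt)

namespace Pool.Agent.LPW.H90

open Pool.Agent.LPW

theorem lin_form (G : MvPolynomial (Fin 2) ℚ) (h : G.totalDegree ≤ 1) :
    G = MvPolynomial.C (MvPolynomial.coeff 0 G) +
      MvPolynomial.C (MvPolynomial.coeff (Finsupp.single 0 1) G) * MvPolynomial.X 0 +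
      MvPolynomial.C (MvPolynomial.coeff (Finsupp.single 1 1) G) * MvPolynomial.X 1 := by
  apply MvPolynomial.ext
  intro m
  rw [MvPolynomial.coeff_add, MvPolynomial.coeff_add, MvPolynomial.coeff_C_mul,
    MvPolynomial.coeff_C_mul, MvPolynomial.coeff_C, MvPolynomial.coeff_X, MvPolynomial.coeff_X]
  have hne : (Finsupp.single (0 : Fin 2) 1 : Fin 2 →₀ ℕ) ≠ Finsupp.single 1 1 := by
    intro h0
    have := DFunLike.congr_fun h0 0
    simp at this
  have hz0 : (0 : Fin 2 →₀ ℕ) ≠ Finsupp.single 0 1 := by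
    intro h0
    have := DFunLike.congr_fun h0 0
    simp at this
  have hz1 : (0 : Fin 2 →₀ ℕ) ≠ Finsupp.single 1 1 := by
    intro h0
    have := DFunLike.congr_fun h0 1
    simp at this
  by_cases h0 : m = 0
  · subst h0
    rw [if_pos rfl, if_neg hz0.symm, if_neg hz1.symm]
    ring
  · rw [if_neg (Ne.symm h0)]
    by_cases h1 : m = Finsupp.single 0 1
    · subst h1
      rw [if_pos rfl, if_neg hne.symm]
      ring
    · rw [if_neg (Ne.symm h1)]
      by_cases h2 : m = Finsupp.single 1 1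
      · subst h2
        rw [if_pos rfl]
        ring
      · rw [if_neg (Ne.symm h2)]
        have h3 : MvPolynomial.coeff m G = 0 := by
          apply MvPolynomial.coeff_eq_zero_of_totalDegree_lt
          have h4 : ∑ i ∈ m.support, m i = m 0 + m 1 := by
            rw [← Fin.sum_univ_two (fun i => m i)]
            exact Finset.sum_subset (Finset.subset_univ _)
              (fun i _ hi => Finsupp.notMem_support_iff.1 hi)
          rw [h4]
          by_contra hlt
          have h5 : m 0 + m 1 ≤ 1 := by omega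
          have h6 : (m 0 = 0 ∧ m 1 = 0) ∨ (m 0 = 1 ∧ m 1 = 0) ∨ (m 0 = 0 ∧ m 1 = 1) := by omega
          rcases h6 with ⟨ha, hb⟩ | ⟨ha, hb⟩ | ⟨ha, hb⟩
          · apply h0
            ext i
            fin_cases i
            · simpa using ha
            · simpa using hb
          · apply h1
            ext i
            fin_cases i
            · simpa using ha
            · simpa using hb
          · apply h2
            ext i
            fin_cases i
            · simpa using ha
            · simpa using hb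
        rw [h3]
        ring

/-- a primitive vector on a rational line -/
theorem prim (α β : ℚ) (h : α ≠ 0 ∨ β ≠ 0) : ∃ v : Fin 2 → ℤ, v ≠ 0 ∧
    ∀ Q : Fin 2 → ℤ, α * (Q 0 : ℚ) + β * (Q 1 : ℚ) = 0 → ∃ t : ℤ, ∀ i, Q i = t * v i := by
  obtain ⟨a, b, s, hs, ha, hb⟩ : ∃ a b s : ℤ, s ≠ 0 ∧ (s : ℚ) * α = a ∧ (s : ℚ) * β = b := by
    refine ⟨α.num * β.den, β.num * α.den, α.den * β.den, ?_, ?_, ?_⟩
    · have h1 := α.den_nz
      have h2 := β.den_nz
      positivity
    · push_cast
      have h1 : (α.den : ℚ) * α = α.num := Rat.den_mul_eq_num α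
      calc (α.den : ℚ) * β.den * α = ((α.den : ℚ) * α) * β.den := by ring
        _ = α.num * β.den := by rw [h1]
    · push_cast
      have h1 : (β.den : ℚ) * β = β.num := Rat.den_mul_eq_num β
      calc (α.den : ℚ) * β.den * β = ((β.den : ℚ) * β) * α.den := by ring
        _ = β.num * α.den := by rw [h1]
  have hs' : (s : ℚ) ≠ 0 := by exact_mod_cast hs
  have hab : a ≠ 0 ∨ b ≠ 0 := by
    rcases h with h | h
    · left
      intro h0
      rw [h0, Int.cast_zero] at ha
      exact (mul_ne_zero hs' h) ha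
    · right
      intro h0
      rw [h0, Int.cast_zero] at hb
      exact (mul_ne_zero hs' h) hb
  have hg : 0 < Int.gcd a b := by
    rcases Nat.eq_zero_or_pos (Int.gcd a b) with h0 | h0
    · rw [Int.gcd_eq_zero_iff] at h0
      rcases hab with h1 | h1
      · exact absurd h0.1 h1
      · exact absurd h0.2 h1
    · exact h0
  obtain ⟨a', ha'⟩ := Int.gcd_dvd_left (a := a) (b := b)
  obtain ⟨b', hb'⟩ := Int.gcd_dvd_right (a := a) (b := b)
  have hbez := Int.gcd_eq_gcd_ab a b
  set g : ℤ := (Int.gcd a b : ℤ) with hgdef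
  have hg0 : g ≠ 0 := by
    rw [hgdef]
    exact Int.natCast_ne_zero.2 hg.ne'
  have hbz : a' * Int.gcdA a b + b' * Int.gcdB a b = 1 := by
    apply mul_left_cancel₀ hg0
    calc g * (a' * Int.gcdA a b + b' * Int.gcdB a b)
        = (g * a') * Int.gcdA a b + (g * b') * Int.gcdB a b := by ring
      _ = a * Int.gcdA a b + b * Int.gcdB a b := by rw [← ha', ← hb']
      _ = g * 1 := by rw [← hbez, mul_one]
  refine ⟨![b', -a'], ?_, ?_⟩
  · intro h0
    have h1 := congrFun h0 0
    have h2 := congrFun h0 1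
    have h1' : b' = 0 := by simpa using h1
    have h2' : a' = 0 := by simpa using h2
    rw [h1', h2'] at hbz
    simp at hbz
  · intro Q hQ
    have h3 : (a : ℚ) * Q 0 + b * Q 1 = 0 := by
      rw [← ha, ← hb]
      calc (s : ℚ) * α * Q 0 + s * β * Q 1 = s * (α * Q 0 + β * Q 1) := by ring
        _ = 0 := by rw [hQ, mul_zero]
    have h4 : a * Q 0 + b * Q 1 = 0 := by exact_mod_cast h3
    have h5 : a' * Q 0 + b' * Q 1 = 0 := by
      apply mul_left_cancel₀ hg0
      calc g * (a' * Q 0 + b' * Q 1) = (g * a') * Q 0 + (g * b') * Q 1 := by ring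
        _ = a * Q 0 + b * Q 1 := by rw [← ha', ← hb']
        _ = g * 0 := by rw [h4, mul_zero]
    refine ⟨Int.gcdB a b * Q 0 - Int.gcdA a b * Q 1, ?_⟩
    intro i
    fin_cases i
    · show Q 0 = (Int.gcdB a b * Q 0 - Int.gcdA a b * Q 1) * b'
      have h6 : b' * Q 1 = - (a' * Q 0) := by linarith
      calc Q 0 = (a' * Int.gcdA a b + b' * Int.gcdB a b) * Q 0 := by rw [hbz, one_mul]
        _ = Int.gcdB a b * Q 0 * b' - Int.gcdA a b * (-(a' * Q 0)) := by ring
        _ = Int.gcdB a b * Q 0 * b' - Int.gcdA a b * (b' * Q 1) := by rw [h6]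
        _ = (Int.gcdB a b * Q 0 - Int.gcdA a b * Q 1) * b' := by ring
    · show Q 1 = (Int.gcdB a b * Q 0 - Int.gcdA a b * Q 1) * (-a')
      have h6 : a' * Q 0 = - (b' * Q 1) := by linarith
      calc Q 1 = (a' * Int.gcdA a b + b' * Int.gcdB a b) * Q 1 := by rw [hbz, one_mul]
        _ = -(Int.gcdB a b * (-(b' * Q 1))) + Int.gcdA a b * Q 1 * a' := by ring
        _ = -(Int.gcdB a b * (a' * Q 0)) + Int.gcdA a b * Q 1 * a' := by rw [h6]
        _ = (Int.gcdB a b * Q 0 - Int.gcdA a b * Q 1) * (-a') := by ring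

theorem sp_res (f : (MvPolynomial (Fin 2) ℤ)[X]) (P v : Fin 2 → ℤ) (t : ℤ) :
    sp (res f P v) t = spr2 f (fun i => P i + t * v i) := by
  unfold sp res spr2
  rw [Polynomial.map_map]
  apply congrArg (fun φ => Polynomial.map φ f)
  apply MvPolynomial.ringHom_ext
  · intro r
    simp
  · intro i
    simp [mul_comm]

theorem res_coeff_deg (g : MvPolynomial (Fin 2) ℤ) (D : ℕ) (h : g.totalDegree ≤ D)
    (P v : Fin 2 → ℤ) :
    ((MvPolynomial.eval₂Hom (Int.castRingHom ℤ[X]) (fun i => C (P i) + C (v i) * X)) g).natDegree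
      ≤ D := by
  have h1 : (MvPolynomial.eval₂Hom (Int.castRingHom ℤ[X]) (fun i => C (P i) + C (v i) * X)) g =
      MvPolynomial.aeval (fun i => (C (P i) + C (v i) * X : ℤ[X])) g := by
    rw [MvPolynomial.aeval_def, MvPolynomial.coe_eval₂Hom]
    apply congrArg (fun φ => MvPolynomial.eval₂ φ _ g)
    exact RingHom.ext_int _ _
  rw [h1]
  have h2 := MvPolynomial.aeval_natDegree_le (n := 1) g h
    (fun i => (C (P i) + C (v i) * X : ℤ[X])) (fun i => by
      refine (natDegree_add_le _ _).trans (max_le ?_ ?_)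
      · rw [natDegree_C]
        exact Nat.zero_le _
      · exact (natDegree_C_mul_le _ _).trans natDegree_X_le)
  simpa using h2

/-- LNB -/
theorem lnb : LnbStmt := by
  intro hMain p _ n r D
  obtain ⟨K, hK⟩ := hMain p n r D
  refine ⟨K, ?_⟩
  intro f u hF A hA G hG
  obtain ⟨hmon, hdeg, hcf, hu⟩ := hF
  by_cases hne : ∃ P₀ : Fin 2 → ℤ, P₀ ∈ A ∧ MvPolynomial.eval (fun i => (P₀ i : ℚ)) G = 0
  swap
  · have hempty : {P : Fin 2 → ℤ | P ∈ A ∧ MvPolynomial.eval (fun i => (P i : ℚ)) G = 0 ∧
        ExcPt p n (spr2 f P) (fun i => spr2 (u i) P)} = ∅ := by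
      apply Set.eq_empty_of_forall_notMem
      rintro P ⟨h1, h2, _⟩
      exact hne ⟨P, h1, h2⟩
    rw [hempty, Set.encard_empty]
    exact bot_le
  obtain ⟨P₀, hP₀A, hP₀G⟩ := hne
  set α := MvPolynomial.coeff (Finsupp.single 0 1) G with hα
  set β := MvPolynomial.coeff (Finsupp.single 1 1) G with hβ
  have hform := lin_form G hG.le
  rw [← hα, ← hβ] at hform
  have hab : α ≠ 0 ∨ β ≠ 0 := by
    by_contra hcon
    rw [not_or, not_not, not_not] at hcon
    rw [hcon.1, hcon.2, map_zero, zero_mul, zero_mul, add_zero, add_zero] at hform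
    rw [hform, MvPolynomial.totalDegree_C] at hG
    exact one_ne_zero hG.symm
  have heval : ∀ P : Fin 2 → ℤ, MvPolynomial.eval (fun i => (P i : ℚ)) G =
      MvPolynomial.coeff 0 G + α * (P 0 : ℚ) + β * (P 1 : ℚ) := by
    intro P
    conv_lhs => rw [hform]
    simp
  obtain ⟨v, hv0, hv⟩ := prim α β hab
  have hresmon : (res f P₀ v).Monic := hmon.map _
  have hresdeg : (res f P₀ v).natDegree = n := by
    rw [← hdeg]
    exact hmon.natDegree_map _
  have hb := hK (res f P₀ v) (fun i => res (u i) P₀ v) hresmon hresdeg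
    (fun j => by
      unfold res spr2
      rw [Polynomial.coeff_map]
      exact res_coeff_deg _ D (hcf j) P₀ v)
    (fun i => ⟨(natDegree_map_le).trans (hu i).1, fun j => by
      unfold res spr2
      rw [Polynomial.coeff_map]
      exact res_coeff_deg _ D ((hu i).2 j) P₀ v⟩)
    (hA P₀ hP₀A v hv0)
  have hsub : {P : Fin 2 → ℤ | P ∈ A ∧ MvPolynomial.eval (fun i => (P i : ℚ)) G = 0 ∧
        ExcPt p n (spr2 f P) (fun i => spr2 (u i) P)} ⊆
      (fun t : ℤ => (fun i => P₀ i + t * v i : Fin 2 → ℤ)) ''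
        {t : ℤ | Exceptional p (res f P₀ v) (fun i => res (u i) P₀ v) t} := by
    rintro P ⟨_, hPG, hPE⟩
    obtain ⟨t, ht⟩ := hv (fun i => P i - P₀ i) (by
      rw [heval] at hPG hP₀G
      push_cast
      linarith)
    have hPt : (fun i => P₀ i + t * v i : Fin 2 → ℤ) = P := by
      funext i
      have h0 : P i - P₀ i = t * v i := ht i
      show P₀ i + t * v i = P i
      rw [← h0]
      ring
    refine ⟨t, ?_, hPt⟩
    obtain ⟨L, i1, i2, θ, h1, h2, h3, h4, h5, h6⟩ := hPE
    refine ⟨L, i1, i2, θ, ?_, h2, ?_, ?_, h5, h6⟩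
    · rw [sp_res, hPt]
      exact h1
    · rw [hresdeg]
      exact h3
    · intro i
      show IsUnit (aeval θ (sp (res (u i) P₀ v) t))
      rw [sp_res, hPt]
      exact h4 i
  exact ((Set.encard_le_encard hsub).trans (Set.encard_image_le _ _)).trans hb

end Pool.Agent.LPW.H90
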